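import Mathlib
import Pool.Agent.Q83.FF.Stm

set_option autoImplicit false

namespace Pool.Agent.Q128.FF

open Pool.Agent.Q83.FF Polynomial Finset Filter Topology

theorem evalP {d : ℕ} (a : Fin d → ℝ) (x : ℝ) : (P a).eval x = ∏ i, (x - a i) := by
  unfold P
  rw [eval_prod]
  simp

theorem P_monic {d : ℕ} (a : Fin d → ℝ) : (P a).Monic := by
  unfold P
  exact monic_prod_of_monic _ _ (fun i _ => monic_X_sub_C _)

theorem P_deg {d : ℕ} (a : Fin d → ℝ) : (P a).natDegree = d := by
  unfold P
  rw [natDegree_prod_of_monic _ _ (fun i _ => monic_X_sub_C _)]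
  simp

/-- sign change at a simple root -/
theorem sgn {d : ℕ} (a : Fin d → ℝ) (δ : ℝ) (hδ : 0 < δ)
    (h : ∀ i j, i ≠ j → 2 * δ < |a i - a j|) (i : Fin d) :
    (P a).eval (a i - δ) * (P a).eval (a i + δ) < 0 := by
  rw [evalP, evalP, ← Finset.prod_mul_distrib, ← Finset.mul_prod_erase _ _ (mem_univ i)]
  apply mul_neg_of_neg_of_pos
  · nlinarith
  · apply Finset.prod_pos
    intro j hj
    have hij : i ≠ j := (Finset.ne_of_mem_erase hj).symm
    have h1 := h i j hij
    have h2 : (2 * δ) ^ 2 < (a i - a j) ^ 2 := by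
      rw [← sq_abs (a i - a j)]
      exact pow_lt_pow_left₀ h1 (by linarith) two_ne_zero
    nlinarith

theorem ivt (f : ℝ → ℝ) (hf : Continuous f) (l r : ℝ) (hlr : l ≤ r) (h : f l * f r < 0) :
    ∃ x, l ≤ x ∧ x ≤ r ∧ f x = 0 := by
  have h0 : (0 : ℝ) ∈ Set.uIcc (f l) (f r) := by
    rw [Set.mem_uIcc]
    rcases mul_neg_iff.1 h with ⟨h1, h2⟩ | ⟨h1, h2⟩
    · right; exact ⟨h2.le, h1.le⟩
    · left; exact ⟨h1.le, h2.le⟩
  obtain ⟨x, hx, hx0⟩ := intermediate_value_uIcc (hf.continuousOn) h0
  rw [Set.uIcc_of_le hlr] at hx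
  exact ⟨x, hx.1, hx.2, hx0⟩

theorem t_pert (h_uniq : S_uniq) : S_pert := by
  intro d a hd ha
  -- the distance of the roots
  have hdel : ∃ δ : ℝ, 0 < δ ∧ ∀ i j, i ≠ j → 2 * δ < |a i - a j| := by
    have h1 : ∀ᶠ δ : ℝ in 𝓝[>] 0, ∀ i j, i ≠ j → 2 * δ < |a i - a j| := by
      rw [Filter.eventually_all]
      intro i
      rw [Filter.eventually_all]
      intro j
      by_cases hij : i = j
      · exact Filter.Eventually.of_forall (fun δ h => absurd hij h)
      · have h2 : 0 < |a i - a j| := abs_pos.2 (sub_ne_zero.2 (fun h => hij (ha h)))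
        have h3 : Tendsto (fun δ : ℝ => 2 * δ) (𝓝[>] 0) (𝓝 0) := by
          have : Tendsto (fun δ : ℝ => 2 * δ) (𝓝 0) (𝓝 (2 * 0)) :=
            (continuous_const.mul continuous_id).tendsto 0
          rw [mul_zero] at this
          exact this.mono_left nhdsWithin_le_nhds
        exact (h3.eventually (gt_mem_nhds h2)).mono (fun δ h _ => h)
    have h2 : ∀ᶠ δ : ℝ in 𝓝[>] 0, 0 < δ := eventually_mem_nhdsWithin
    obtain ⟨δ, h⟩ := (h2.and h1).exists
    exact ⟨δ, h.1, h.2⟩
  obtain ⟨δ, hδ, hsep⟩ := hdel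
  -- the size of the perturbation
  have hev : ∀ᶠ e : ℝ in 𝓝 0, ∀ i, ((P a).eval (a i - δ) + e) * ((P a).eval (a i + δ) + e) < 0 := by
    rw [Filter.eventually_all]
    intro i
    have h1 : Tendsto (fun e : ℝ => ((P a).eval (a i - δ) + e) * ((P a).eval (a i + δ) + e)) (𝓝 0)
        (𝓝 (((P a).eval (a i - δ) + 0) * ((P a).eval (a i + δ) + 0))) := by
      have : Continuous (fun e : ℝ => ((P a).eval (a i - δ) + e) * ((P a).eval (a i + δ) + e)) := by
        fun_prop
      exact this.tendsto 0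
    rw [add_zero, add_zero] at h1
    exact h1.eventually (gt_mem_nhds (sgn a δ hδ hsep i))
  rw [Metric.eventually_nhds_iff] at hev
  obtain ⟨e1, he1, hev⟩ := hev
  refine ⟨e1 / 2, by linarith, fun e he => ?_⟩
  have hev' := hev (y := e) (by rw [Real.dist_eq, sub_zero]; linarith)
  have hroot : ∀ i, ∃ x, a i - δ ≤ x ∧ x ≤ a i + δ ∧ (P a + C e).eval x = 0 := by
    intro i
    apply ivt (fun x => (P a + C e).eval x) (P a + C e).continuous _ _ (by linarith)
    simp only [eval_add, eval_C]
    exact hev' i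
  choose r hr1 hr2 hr3 using hroot
  have hrinj : Function.Injective r := by
    intro i j hij
    by_contra hne
    have h1 := hsep i j hne
    have h2 : |a i - a j| ≤ 2 * δ := by
      rw [abs_le]
      have e1 := hr1 i
      have e2 := hr2 i
      have e3 := hr1 j
      have e4 := hr2 j
      rw [hij] at e1 e2
      constructor <;> linarith
    linarith
  refine ⟨r, ?_⟩
  apply Polynomial.eq_of_degree_sub_lt_of_eval_finset_eq (univ.image r)
  · rw [Finset.card_image_of_injective _ hrinj, card_univ, Fintype.card_fin]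
    have h1 : (P r - P a).degree < (d : WithBot ℕ) := by
      have e1 : (P r).degree = d := by
        rw [Polynomial.degree_eq_natDegree (P_monic r).ne_zero, P_deg]
      have e2 : (P a).degree = d := by
        rw [Polynomial.degree_eq_natDegree (P_monic a).ne_zero, P_deg]
      have := Polynomial.degree_sub_lt_left (e1.trans e2.symm) (P_monic r).ne_zero
        (by rw [(P_monic r).leadingCoeff, (P_monic a).leadingCoeff])
      rwa [e1] at this
    have h2 : P r - (P a + C e) = (P r - P a) - C e := by ring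
    rw [h2]
    refine lt_of_le_of_lt (Polynomial.degree_sub_le _ _) (max_lt h1 ?_)
    refine lt_of_le_of_lt Polynomial.degree_C_le ?_
    exact_mod_cast hd
  · intro x hx
    obtain ⟨i, -, rfl⟩ := Finset.mem_image.1 hx
    rw [hr3 i, evalP]
    exact Finset.prod_eq_zero (mem_univ i) (sub_self _)

end Pool.Agent.Q128.FF
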