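import Mathlib
import Pool.Agent.Q83.FF.Stm

set_option autoImplicit false

namespace Pool.Agent.Q128.FF.RC

open Pool.Agent.Q83.FF Polynomial Finset Filter Topology

theorem P_monic {d : ℕ} (a : Fin d → ℝ) : (P a).Monic := by
  unfold P
  exact monic_prod_of_monic _ _ (fun i _ => monic_X_sub_C _)

theorem P_deg {d : ℕ} (a : Fin d → ℝ) : (P a).natDegree = d := by
  unfold P
  rw [natDegree_prod_of_monic _ _ (fun i _ => monic_X_sub_C _)]
  simp

/-- coefficients of the heat semigroup -/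
theorem heat_coeff (d : ℕ) (s : ℝ) (p : ℝ[X]) (n : ℕ) :
    (heat d s p).coeff n = ∑ j ∈ range (d + 1), (-(s / (2 * ((d : ℝ) - 1)))) ^ j / (Nat.factorial j : ℝ)
      * (((n + 2 * j).descFactorial (2 * j) : ℝ) * p.coeff (n + 2 * j)) := by
  unfold heat
  rw [finsetSum_coeff]
  apply Finset.sum_congr rfl
  intro j _
  rw [coeff_C_mul, coeff_iterate_derivative, nsmul_eq_mul]

/-- scaling of the heat semigroup on coefficients -/
theorem scale (h_smul : S_smul) (d : ℕ) (a : Fin d → ℝ) (s t : ℝ) (k : ℕ) (hk : k ≤ d) :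
    (heat d (t ^ 2 * s) (P (t • a))).coeff (d - k) = t ^ k * (heat d s (P a)).coeff (d - k) := by
  rw [heat_coeff, heat_coeff, Finset.mul_sum]
  apply Finset.sum_congr rfl
  intro j _
  rcases le_or_gt (2 * j) k with h | h
  · have e1 : d - k + 2 * j = d - (k - 2 * j) := by omega
    rw [e1, h_smul.1 d a t (k - 2 * j) (by omega)]
    have e2 : t ^ k = t ^ (2 * j) * t ^ (k - 2 * j) := by
      rw [← pow_add]; congr 1; omega
    have e3 : (-(t ^ 2 * s / (2 * ((d : ℝ) - 1)))) ^ j =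
        t ^ (2 * j) * (-(s / (2 * ((d : ℝ) - 1)))) ^ j := by
      rw [pow_mul, ← mul_pow]; congr 1; ring
    rw [e3, e2]
    ring
  · have e1 : (P (t • a)).coeff (d - k + 2 * j) = 0 := by
      apply coeff_eq_zero_of_natDegree_lt
      rw [P_deg]; omega
    have e2 : (P a).coeff (d - k + 2 * j) = 0 := by
      apply coeff_eq_zero_of_natDegree_lt
      rw [P_deg]; omega
    rw [e1, e2]
    ring

/-- coefficients of the convolution -/
theorem conv_coeff (d : ℕ) (p q : ℝ[X]) (i : ℕ) (hi : i ≤ d) :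
    (conv d p q).coeff (d - i) = (-1 : ℝ) ^ i * ∑ jk ∈ antidiagonal i,
      ((Nat.factorial (d - jk.1) : ℝ) * (Nat.factorial (d - jk.2) : ℝ))
        / ((Nat.factorial d : ℝ) * (Nat.factorial (d - i) : ℝ))
        * ((-1 : ℝ) ^ jk.1 * p.coeff (d - jk.1)) * ((-1 : ℝ) ^ jk.2 * q.coeff (d - jk.2)) := by
  unfold conv
  rw [finsetSum_coeff, Finset.sum_eq_single i]
  · rw [coeff_C_mul, coeff_X_pow, if_pos rfl, mul_one]
  · intro j hj hji
    rw [coeff_C_mul, coeff_X_pow, if_neg, mul_zero]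
    have := Finset.mem_range.1 hj
    omega
  · intro h
    exact absurd (Finset.mem_range.2 (by omega)) h

/-- the first coefficients of the convolution -/
theorem conv_low (d m : ℕ) (p q : ℝ[X]) (hm : m ≤ d) (hp : p.coeff d = 1) (hq : q.coeff d = 1)
    (hp' : ∀ k, 1 ≤ k → k < m → p.coeff (d - k) = 0)
    (hq' : ∀ k, 1 ≤ k → k < m → q.coeff (d - k) = 0) (i : ℕ) (hi1 : 1 ≤ i) (him : i ≤ m) :
    (conv d p q).coeff (d - i) = p.coeff (d - i) + q.coeff (d - i) := by
  rw [conv_coeff d p q i (by omega)]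
  have hsub : ({(0, i), (i, 0)} : Finset (ℕ × ℕ)) ⊆ antidiagonal i := by
    intro x hx
    rw [Finset.mem_insert, Finset.mem_singleton] at hx
    rw [Finset.HasAntidiagonal.mem_antidiagonal]
    rcases hx with rfl | rfl
    · simp
    · simp
  rw [← Finset.sum_subset hsub, Finset.sum_pair]
  · simp only [Nat.sub_zero, pow_zero, one_mul, hp, hq, mul_one]
    have hf1 : (Nat.factorial d : ℝ) ≠ 0 := by exact_mod_cast Nat.factorial_ne_zero d
    have hf2 : (Nat.factorial (d - i) : ℝ) ≠ 0 := by exact_mod_cast Nat.factorial_ne_zero (d - i)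
    have h1 : (Nat.factorial d : ℝ) * (Nat.factorial (d - i) : ℝ) /
        ((Nat.factorial d : ℝ) * (Nat.factorial (d - i) : ℝ)) = 1 := by
      field_simp
    have h2 : (Nat.factorial (d - i) : ℝ) * (Nat.factorial d : ℝ) /
        ((Nat.factorial d : ℝ) * (Nat.factorial (d - i) : ℝ)) = 1 := by
      rw [mul_comm (Nat.factorial (d - i) : ℝ)]; exact h1
    rw [h1, h2]
    have h3 : ((-1 : ℝ) ^ i) * ((-1 : ℝ) ^ i) = 1 := by
      rw [← mul_pow]; norm_num
    linear_combination (p.coeff (d - i) + q.coeff (d - i)) * h3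
  · intro h
    rw [Prod.mk.injEq] at h
    omega
  · intro x hx hx2
    rw [Finset.HasAntidiagonal.mem_antidiagonal] at hx
    rw [Finset.mem_insert, Finset.mem_singleton, not_or] at hx2
    have h1 : x.1 ≠ 0 := by
      intro h
      apply hx2.1
      ext
      · exact h
      · show x.2 = i
        omega
    have h2 : x.2 ≠ 0 := by
      intro h
      apply hx2.2
      ext
      · show x.1 = i
        omega
      · exact h
    rw [hp' x.1 (by omega) (by omega)]
    ring

theorem t_rcoef (h_heatconv : S_heatconv) (h_smul : S_smul) (h_convbasic : S_convbasic)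
    (h_heatalg : S_heatalg) : S_rcoef := by
  intro d m a b c l v hd hm1 hmd hl hl1 hc ha hb
  obtain ⟨-, -, -, -, -, -, hmon⟩ := h_heatalg
  have hs1 : (Real.sqrt l) ^ 2 = l := Real.sq_sqrt hl.le
  have hs2 : (Real.sqrt (1 - l)) ^ 2 = 1 - l := Real.sq_sqrt (by linarith)
  have hconv : heat d (-v) (P c) = conv d (heat d ((Real.sqrt l) ^ 2 * (-v)) (P (Real.sqrt l • a)))
      (heat d ((Real.sqrt (1 - l)) ^ 2 * (-v)) (P (Real.sqrt (1 - l) • b))) := by
    rw [h_heatconv d _ _ _ _ (P_deg _).le (P_deg _).le, ← hc, hs1, hs2]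
    congr 1
    ring
  set A := heat d ((Real.sqrt l) ^ 2 * (-v)) (P (Real.sqrt l • a)) with hA
  set B := heat d ((Real.sqrt (1 - l)) ^ 2 * (-v)) (P (Real.sqrt (1 - l) • b)) with hB
  have hA1 : A.coeff d = 1 := by
    obtain ⟨h1, h2⟩ := hmon d ((Real.sqrt l) ^ 2 * (-v)) _ (P_monic (Real.sqrt l • a)) (P_deg _)
    have := h1.coeff_natDegree
    rwa [h2] at this
  have hB1 : B.coeff d = 1 := by
    obtain ⟨h1, h2⟩ := hmon d ((Real.sqrt (1 - l)) ^ 2 * (-v)) _ (P_monic (Real.sqrt (1 - l) • b))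
      (P_deg _)
    have := h1.coeff_natDegree
    rwa [h2] at this
  have hAk : ∀ k, k ≤ d → A.coeff (d - k) = Real.sqrt l ^ k * (heat d (-v) (P a)).coeff (d - k) :=
    fun k hk => scale h_smul d a (-v) (Real.sqrt l) k hk
  have hBk : ∀ k, k ≤ d → B.coeff (d - k) = Real.sqrt (1 - l) ^ k * (heat d (-v) (P b)).coeff (d - k) :=
    fun k hk => scale h_smul d b (-v) (Real.sqrt (1 - l)) k hk
  have hA0 : ∀ k, 1 ≤ k → k < m → A.coeff (d - k) = 0 := by
    intro k h1 h2
    rw [hAk k (by omega), ha k h1 h2, mul_zero]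
  have hB0 : ∀ k, 1 ≤ k → k < m → B.coeff (d - k) = 0 := by
    intro k h1 h2
    rw [hBk k (by omega), hb k h1 h2, mul_zero]
  refine ⟨fun k h1 h2 => ?_, ?_⟩
  · rw [hconv, conv_low d m A B hmd hA1 hB1 hA0 hB0 k h1 h2.le, hA0 k h1 h2, hB0 k h1 h2, add_zero]
  · rw [hconv, conv_low d m A B hmd hA1 hB1 hA0 hB0 m hm1 le_rfl, hAk m hmd, hBk m hmd]

end Pool.Agent.Q128.FF.RC
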